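import Pool.Agent.Helper1.RK.StC

/-!
# Project RK (MP_de00bc_nt): module CC1 (the common coordinate)
-/

set_option autoImplicit false

namespace Pool.Agent.Helper18.RK

open Pool.Agent.Helper1.RK
open Polynomial

section

variable {L : Type} [Field L]

theorem ordZero (p : L) : ord p (0 : RatFunc L) = 0 := by
  simp [ord]

theorem legNe {l : L} {U : RatFunc L} {τ : L} (h : Odd (ord τ (leg l U))) : leg l U ≠ 0 := by
  intro h0
  rw [h0, ordZero] at h
  exact absurd h (by decide)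

theorem mapLeg (θ : RatFunc L →ₐ[L] RatFunc L) (hC : ∀ a, θ (RatFunc.C a) = RatFunc.C a) (l : L)
    (U : RatFunc L) : θ (leg l U) = leg l (θ U) := by
  simp only [leg, map_mul, map_sub, map_one, hC]

/-- a bijective substitution preserves orders -/
theorem ordBij (h1 : StORD) (h8 : StCMP) (θ : RatFunc L ≃ₐ[L] RatFunc L) (p q : L)
    (hr : Reg p (θ RatFunc.X)) (he : ev p (θ RatFunc.X) = q) (g : RatFunc L) (hg : g ≠ 0) :
    ord p (θ g) = ord q g := by
  obtain ⟨c1, c2, -, -⟩ := h8 L p q (θ : RatFunc L →ₐ[L] RatFunc L) hr he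
  obtain ⟨g0, hg0⟩ := θ.surjective (RatFunc.X - RatFunc.C p)
  have h10 : ord p (RatFunc.X - RatFunc.C p : RatFunc L) = 1 := (h1 L p).2.2.2.2.2.2.2.2.1
  have g0ne : g0 ≠ 0 := by
    rintro rfl
    rw [map_zero] at hg0
    rw [← hg0, ordZero] at h10
    exact absurd h10 (by decide)
  have e0 := c2 g0 g0ne
  have e1 := c2 g hg
  simp only [AlgEquiv.coe_toAlgHom] at e0 e1 c1
  rw [hg0, h10] at e0
  have e2 : ord p (θ RatFunc.X - RatFunc.C q) = 1 := by
    have hd : ord p (θ RatFunc.X - RatFunc.C q) ∣ 1 := ⟨_, e0⟩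
    have := Int.eq_one_of_dvd_one (by omega) hd
    exact this
  rw [e1, e2, one_mul]

/-- the core of CC1: one index `k` -/
theorem core [CharZero L] [IsAlgClosed L] (h1 : StORD) (h2 : StREG) (h3 : StDER) (h4 : StLCD)
    (h5 : StPL) (h6 : StIOT) (h7 : StTRN) (h8 : StCMP) (ι : RatFunc L ≃ₐ[L] RatFunc L)
    (hι : ι RatFunc.X = RatFunc.X⁻¹) (d : Derivation ℤ L L) (l : L)
    (f φ : RatFunc L →ₐ[L] RatFunc L) (U₁ h₁ U' V : RatFunc L) (τ₁ : L)
    (D : Derivation ℤ (RatFunc L) (RatFunc L)) (hD : Over d V D) (hh : f h₁ = D (f RatFunc.X))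
    (hD0 : D (φ RatFunc.X) = 0) (hM : ∃ M, f M = φ RatFunc.X) (hN : ∃ N, φ N = f RatFunc.X)
    (hU : φ U' = f U₁) (hev : Even (ord 0 (leg l (ι U₁)))) (hreg : ∀ τ, Reg τ h₁)
    (hB : BadH d l h₁ U₁ τ₁) (hq : ∀ τ', BadH d l h₁ U₁ τ' → τ' = τ₁) :
    ∃ τ, Uni d (leg l U') τ := by
  obtain ⟨M, hM⟩ := hM
  obtain ⟨N, hN⟩ := hN
  obtain ⟨-, i2, -, i4, i5, i6⟩ := h6 L
  obtain ⟨hιι, -, -⟩ := i2 ι hι
  have Xnc : ¬ Cst (RatFunc.X : RatFunc L) := by
    rintro ⟨a, ha⟩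
    have h10 : ord a (RatFunc.X - RatFunc.C a : RatFunc L) = 1 := (h1 L a).2.2.2.2.2.2.2.2.1
    rw [← ha, sub_self, ordZero] at h10
    exact absurd h10 (by decide)
  have Mnc : ¬ Cst M := by
    rw [← (i6 f).2 M, hM, (i6 φ).2]
    exact Xnc
  have Nnc : ¬ Cst N := by
    rw [← (i6 φ).2 N, hN, (i6 f).2]
    exact Xnc
  obtain ⟨θ, hθ⟩ := i4 M Mnc
  obtain ⟨η, hη⟩ := i4 N Nnc
  have e1 : φ = f.comp θ := by
    apply i5
    rw [AlgHom.comp_apply, hθ, hM]
  have e2 : f = φ.comp η := by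
    apply i5
    rw [AlgHom.comp_apply, hη, hN]
  have finj : Function.Injective f := f.toRingHom.injective
  have φinj : Function.Injective φ := φ.toRingHom.injective
  have e3 : ∀ g, θ (η g) = g := by
    intro g
    apply finj
    have : f (θ (η g)) = φ (η g) := by
      conv_rhs => rw [e1]
      rfl
    rw [this]
    conv_rhs => rw [e2]
    rfl
  have e4 : ∀ g, η (θ g) = g := by
    intro g
    apply φinj
    have : φ (η (θ g)) = f (θ g) := by
      conv_rhs => rw [e2]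
      rfl
    rw [this]
    conv_rhs => rw [e1]
    rfl
  have fθ : ∀ g, f (θ g) = φ g := by
    intro g
    conv_rhs => rw [e1]
    rfl
  have φη : ∀ g, φ (η g) = f g := by
    intro g
    conv_rhs => rw [e2]
    rfl
  let Θ : RatFunc L ≃ₐ[L] RatFunc L :=
    AlgEquiv.ofAlgHom θ η (AlgHom.ext e3) (AlgHom.ext e4)
  have Θ1 : ∀ g, Θ g = θ g := fun g => rfl
  have Θ2 : ∀ g, Θ.symm g = η g := fun g => rfl
  have hθU : θ U' = U₁ := by
    apply finj
    rw [fθ, hU]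
  have hηU : η U₁ = U' := by
    rw [← hθU, e4]
  -- the derivation `E`
  obtain ⟨E, hE⟩ := (h3 L).1 d h₁
  obtain ⟨Dt, hDt⟩ := (h3 L).1 0 1
  have tE := (h7 L d).1 f V h₁ D E hD hE hh.symm
  have EM : E M = 0 := by
    apply finj
    rw [← tE, hM, hD0, map_zero]
  obtain ⟨hB1, hB2, hB3⟩ := hB
  have hPL := (h5 L τ₁ d h₁ E Dt M hE hDt EM Mnc).1
  have Mreg : Reg τ₁ M := by
    by_contra hc
    exact hB2 (hPL (Or.inl hc)).2
  have Mval : d (ev τ₁ M) ≠ 0 := by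
    intro hc
    exact hB2 (hPL (Or.inr hc)).2
  have legU : θ (leg l U') = leg l U₁ := by
    rw [mapLeg θ (i6 θ).1, hθU]
  have legU' : η (leg l U₁) = leg l U' := by
    rw [mapLeg η (i6 η).1, hηU]
  have leg1ne : leg l U₁ ≠ 0 := legNe hB3
  have leg2ne : leg l U' ≠ 0 := by
    intro h0
    rw [h0, map_zero] at legU
    exact leg1ne legU.symm
  have o1 : ord τ₁ (leg l U₁) = ord (ev τ₁ M) (leg l U') := by
    have := ordBij h1 h8 Θ τ₁ (ev τ₁ M) (by rw [Θ1, hθ]; exact Mreg) (by rw [Θ1, hθ]) (leg l U') leg2ne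
    rw [Θ1, legU] at this
    exact this
  refine ⟨ev τ₁ M, Mval, by rw [← o1]; exact hB3, ?_⟩
  intro τ' hd' hodd
  by_cases hNr : Reg τ' N
  · -- the regular case
    set q := ev τ' N with hqdef
    have ob : ∀ g, g ≠ 0 → ord τ' (η g) = ord q g := by
      intro g hg
      have := ordBij h1 h8 Θ.symm τ' q (by rw [Θ2, hη]; exact hNr) (by rw [Θ2, hη]) g hg
      rw [Θ2] at this
      exact this
    have o2 : ord τ' (leg l U') = ord q (leg l U₁) := by
      rw [← legU', ob _ leg1ne]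
    obtain ⟨E0, hE0⟩ := (h3 L).1 d 0
    have tE0 := (h7 L d).1 φ V 0 D E0 hD hE0 (by rw [hD0, map_zero])
    have cE : E0 N = η h₁ := by
      apply φinj
      rw [← tE0, hN, φη, hh]
    obtain ⟨-, -, c3, -⟩ := h8 L τ' q η (by rw [hη]; exact hNr) (by rw [hη])
    have c3h := (c3 h₁ (hreg q)).2
    obtain ⟨l1, -, l3⟩ := h4 L τ' Dt hDt
    have reg0 : Reg τ' (0 : RatFunc L) ∧ ev τ' (0 : RatFunc L) = 0 := by
      have := (h2 L τ').2.2.2.2.1 0
      rwa [map_zero] at this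
    have l1' := ((l1 d 0 E0 hE0 reg0.1).1 N hNr).2
    have l3' := (l3 N Nnc hNr).2
    have XC : (RatFunc.X - RatFunc.C q : RatFunc L) ≠ 0 := by
      intro h0
      exact Xnc ⟨q, sub_eq_zero.mp h0⟩
    have o3 : ord τ' (N - RatFunc.C q) = 1 := by
      have h10 : ord q (RatFunc.X - RatFunc.C q : RatFunc L) = 1 := (h1 L q).2.2.2.2.2.2.2.2.1
      have := ob (RatFunc.X - RatFunc.C q) XC
      rw [map_sub, hη, (i6 η).1, h10] at this
      exact this
    have o4 : ord τ' (Dt N) = 0 := by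
      rw [l3', ← hqdef, o3]
      norm_num
    have DtN : Dt N ≠ 0 := by
      intro h0
      exact Nnc (((h3 L).2.2.2 Dt hDt N).mp h0)
    have DtR : Reg τ' (Dt N) := ((h2 L τ').2.1 (Dt N)).mpr (Or.inr (by rw [o4]))
    have DtV : ev τ' (Dt N) ≠ 0 := by
      intro h0
      rcases ((h2 L τ').2.2.2.1 (Dt N) DtR).mp h0 with h0 | h0
      · exact DtN h0
      · rw [o4] at h0
        exact absurd h0 (by decide)
    have hbad : BadH d l h₁ U₁ q := by
      refine ⟨hreg q, ?_, by rw [← o2]; exact hodd⟩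
      intro hc
      rw [cE, c3h, reg0.2, ← hqdef, hc, zero_sub] at l1'
      have : d τ' * ev τ' (Dt N) = 0 := by
        have h0 := l1'
        linear_combination h0
      rcases mul_eq_zero.mp this with h0 | h0
      · exact hd' h0
      · exact DtV h0
    have hq1 : q = τ₁ := hq q hbad
    have hMq : Reg q M := by
      rw [hq1]
      exact Mreg
    have c3M := (c3 M hMq).2
    have hX : η M = RatFunc.X := by
      rw [← hθ, e4]
    rw [hX, ((h2 L τ').2.2.2.2.2.1).2, hq1] at c3M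
    exact c3M
  · -- the pole case
    exfalso
    obtain ⟨Nne, Nord⟩ := ((h2 L τ').2.2.1 N).mp hNr
    have oinv : ord τ' N⁻¹ = - ord τ' N := (h1 L τ').2.2.1 N
    have rinv : Reg τ' N⁻¹ := ((h2 L τ').2.1 N⁻¹).mpr (Or.inr (by rw [oinv]; omega))
    have einv : ev τ' N⁻¹ = 0 := ((h2 L τ').2.2.2.1 N⁻¹ rinv).mpr (Or.inr (by rw [oinv]; omega))
    have hX : (ι.trans Θ.symm) RatFunc.X = N⁻¹ := by
      rw [AlgEquiv.trans_apply, hι, Θ2, map_inv₀, hη]
    have ιleg : leg l (ι U₁) = ι (leg l U₁) := by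
      exact (mapLeg (ι : RatFunc L →ₐ[L] RatFunc L) (i6 _).1 l U₁).symm
    have legne : leg l (ι U₁) ≠ 0 := by
      rw [ιleg]
      intro h0
      exact leg1ne (by simpa using h0)
    have ob := ordBij h1 h8 (ι.trans Θ.symm) τ' 0 (by rw [hX]; exact rinv) (by rw [hX]; exact einv)
      (leg l (ι U₁)) legne
    rw [AlgEquiv.trans_apply, Θ2, ιleg, hιι, legU', ← ιleg] at ob
    rw [ob] at hodd
    exact (Int.not_odd_iff_even.mpr hev) hodd

end

/-- **CC1** -/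
theorem pCC1 (h1 : StORD) (h2 : StREG) (h3 : StDER) (h4 : StLCD) (h5 : StPL) (h6 : StIOT)
    (h7 : StTRN) (h8 : StCMP) (h9 : StGDC) (h10 : StTY3) (h11 : StNRM) : StCC1 := by
  intro L _ _ _ ι hι dl lam u D hC hNI
  choose φ U h hG using fun k => h9 L ι hι 3 dl lam u D hC k
  have hT := fun k => h10 L ι hι dl lam u D hC hNI φ U h hG k
  have hreg := fun k => (hT k).1
  choose τ hBad hUniq using fun k => (hT k).2
  choose ψ hψ using fun k => h11 L ι hι 3 dl lam u D hC k (φ k) (U k) (h k) (τ k) (hG k) (hreg k)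
    (hUniq k)
  obtain ⟨-, -, -, i4, i5, i6⟩ := h6 L
  have Xnc : ¬ Cst (RatFunc.X : RatFunc L) := by
    rintro ⟨a, ha⟩
    have h10 : ord a (RatFunc.X - RatFunc.C a : RatFunc L) = 1 := (h1 L a).2.2.2.2.2.2.2.2.1
    rw [← ha, sub_self, ordZero] at h10
    exact absurd h10 (by decide)
  let Φ : RatFunc L →ₐ[L] RatFunc L := (φ 0).comp (ψ 0 : RatFunc L →ₐ[L] RatFunc L)
  have hΦ : ∀ g, Φ g = φ 0 (ψ 0 g) := fun g => rfl
  have hΦX : ∀ l, D l (Φ RatFunc.X) = 0 := fun l => hψ 0 l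
  -- every `φ k g` lies in the range of `Φ`
  have hrange : ∀ k g, ∃ g', Φ g' = φ k g := by
    intro k g
    obtain ⟨g0, hg0⟩ := (hG 0).gen.top (φ k (ψ k RatFunc.X)) (fun l _ => hψ k l)
    have hg1 : Φ ((ψ 0).symm g0) = φ k (ψ k RatFunc.X) := by
      rw [hΦ, AlgEquiv.apply_symm_apply, hg0]
    have nc : ¬ Cst ((ψ 0).symm g0) := by
      rw [← (i6 Φ).2, hg1]
      have := (i6 ((φ k).comp (ψ k : RatFunc L →ₐ[L] RatFunc L))).2 RatFunc.X
      intro hc
      exact Xnc (this.mp hc)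
    obtain ⟨σ, hσ⟩ := i4 _ nc
    have e1 : (φ k).comp (ψ k : RatFunc L →ₐ[L] RatFunc L) = Φ.comp σ := by
      apply i5
      rw [AlgHom.comp_apply, AlgHom.comp_apply, hσ, hg1]
      rfl
    refine ⟨σ ((ψ k).symm g), ?_⟩
    have e2 := congrArg (fun F : RatFunc L →ₐ[L] RatFunc L => F ((ψ k).symm g)) e1
    simp only [AlgHom.comp_apply] at e2
    rw [← e2]
    congr 1
    exact AlgEquiv.apply_symm_apply (ψ k) g
  refine ⟨Φ, hΦX, ?_, ?_⟩
  · intro k
    refine ⟨fun l _ => hΦX l, ?_⟩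
    intro w hw
    obtain ⟨g, hg⟩ := (hG k).gen.top w hw
    obtain ⟨g', hg'⟩ := hrange k g
    exact ⟨g', by rw [hg', hg]⟩
  · intro k U' hU'
    obtain ⟨M, hM⟩ := (hG k).gen.top (Φ RatFunc.X) (fun l _ => hΦX l)
    exact core h1 h2 h3 h4 h5 h6 h7 h8 ι hι (dl k) (lam k) (φ k) Φ (U k) (h k) U' (D k RatFunc.X)
      (τ k) (D k) ⟨hC.lift k, rfl⟩ (hG k).hh (hΦX k) ⟨M, hM⟩ (hrange k RatFunc.X)
      (by rw [hU', (hG k).hu]) (hG k).evenInf (hreg k) (hBad k) (hUniq k)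

end Pool.Agent.Helper18.RK
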